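import Pool.Agent.MP_ecfd11_lc.H3U.Main
import Pool.Agent.MP_ecfd11_lc.H3U.Sc

namespace Pool.Agent.Results.MP_ecfd11_lc.ExactConverse

open Pool.Agent.MP_ecfd11_lc Pool.Agent.MP_ecfd11_lc.H13X Pool.Agent.MP_ecfd11_lc.H3U

universe u

/-- Assume simultaneous stationary reflection to points of cofinality below `d` at all regular
cardinals above `d`, and a proper class of critical points of I3 embeddings with well-founded
omega-th iterate.  Then the regular cardinals that are not omega-strongly measurable in HOD are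
bounded iff, below all large such critical points, club many ordinals of countable cofinality have
the bounded HOD-Berkeley property `Berk`. -/
theorem result (d : ZFSet.{u}) (hr : Regular Set.univ d)
    (hd : ∀ l, d ∈ l → Regular Set.univ l → Reflects d l)
    (hI : ∀ a : ZFSet.{u}, a.IsOrdinal → ∃ t, a ∈ t ∧ I3wf t) :
    (¬ ∀ a : ZFSet.{u}, a.IsOrdinal →
        ∃ l, a ∈ l ∧ Regular Set.univ l ∧ ¬ StronglyMeasurable Set.univ l) ↔
      ∃ a : ZFSet.{u}, a.IsOrdinal ∧ ∀ t, a ∈ t → I3wf t →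
        ∃ c, Club t c ∧ ∀ l ∈ c, CofOmega Set.univ l → Berk l := by
  rw [not_iff_comm, iff_comm]
  have key : ∀ a t : ZFSet.{u}, a.IsOrdinal → a ∪ d ∈ t → t.IsOrdinal → a ∈ t ∧ d ∈ t :=
    fun a t ha h1 h2 =>
      ⟨ha.mem_of_subset_of_mem h2 (fun x hx => ZFSet.mem_union.2 (Or.inl hx)) h1,
        hr.1.mem_of_subset_of_mem h2 (fun x hx => ZFSet.mem_union.2 (Or.inr hx)) h1⟩
  refine ⟨?_, fun h a ha => by_contra fun hn => h ?_⟩
  · rintro h ⟨a, ha, h7⟩
    obtain ⟨t, t1, t2⟩ := hI (a ∪ d) (isOrdinal_union ha hr.1)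
    obtain ⟨m, j, t3⟩ := t2.ce
    obtain ⟨t4, t5⟩ := key a t ha t1 t2.1
    have t0 := t2.1.mem_trans hr.2.1 t5
    obtain ⟨c, c1, c2⟩ := h7 t t4 t2
    have t6 := t3.regular t0
    obtain ⟨L, l1, h1⟩ := t6.stat_unbdd (S := t.sep Berk) ⟨ZFSet.sep_subset, fun e _ he => by
      obtain ⟨L, h7, h8, -⟩ := t3.tree (B := ∅) t0 (ZFSet.empty_subset _)
        ((H20.unc_of_regular t6).club_inter c1 he) t0
      obtain ⟨h9, h10⟩ := ZFSet.mem_inter.1 h7
      exact ⟨L, ZFSet.mem_sep.2 ⟨c1.1 h9, c2 L h9 h8⟩, h10⟩⟩ t5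
    have h2 := (ZFSet.mem_sep.1 l1).2
    have h0 := h2.1.mem_trans hr.2.1 h1
    obtain ⟨l, h3, h4, h5⟩ :=
      h ((2 : Cardinal.{u}) ^ L.card).ord.toZFSet (ZFSet.isOrdinal_toZFSet _)
    have h6 : 2 ^ L.card < l.card := by simpa only [card_ord'] using h4.card_lt h3
    exact h5 (conv (hd l (h4.1.mem_trans h1 (h4.mem_of_card_lt h2.1
      ((Cardinal.cantor _).trans h6))) h4) h1 ((h2.old.exact h0).one h0) h4 h6)
  · refine ⟨a ∪ d, isOrdinal_union ha hr.1, fun t h1 h2 => ?_⟩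
    obtain ⟨m, j, h3⟩ := h2.ce
    obtain ⟨h4, h5⟩ := key a t ha h1 h2.1
    obtain ⟨e, e1, -, e2⟩ := h3.exists_sc (h2.1.mem_trans hr.2.1 h5) h4
    exact club_berk h3 e2 e1 h4 fun l h1 h2 => by_contra fun h3 => hn ⟨l, h1, h2, h3⟩

end Pool.Agent.Results.MP_ecfd11_lc.ExactConverse
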