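import Pool.Agent.MP_ecfd11_lc.Mg.Iff

namespace Pool.Agent.Results.MP_ecfd11_lc.ForcingIff

open Pool.Agent.MP_ecfd11_lc

universe u

/-- Which large regular cardinals are not omega-strongly measurable in HOD in a set-forcing
extension, computed in the ground model. -/
theorem result (M : Set ZFSet.{u}) (hM : IsGround M) :
    ∃ θ : ZFSet.{u}, θ.IsOrdinal ∧ ∀ l, θ ∈ l →
      (Regular Set.univ l ∧ ¬ CofSM Set.univ Ordinal.omega0.toZFSet l ↔
        Regular M l ∧ ∃ g, Cof Set.univ Ordinal.omega0.toZFSet g ∧ ¬ CofSM M g l) := by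
  obtain ⟨P, le, G, val, h⟩ := hM.fc
  obtain ⟨θ, h1, h2⟩ := h.upCof
  obtain ⟨θ', h1', h2'⟩ := h.downCof
  refine ⟨θ ∪ θ', isOrdinal_union h1 h1', fun l hl => ⟨fun ⟨h3, h4⟩ => ⟨h3.down, ?_⟩,
    fun ⟨h3, g, h4, h5⟩ => ?_⟩⟩
  · by_contra h5
    push Not at h5
    exact h4 (h2' l (h1'.mem_of_subset_of_mem h3.1
      (fun x hx => ZFSet.mem_union.2 (Or.inr hx)) hl) h3.down h5)
  · obtain ⟨h6, h7⟩ := h2 l (h1.mem_of_subset_of_mem h3.1
      (fun x hx => ZFSet.mem_union.2 (Or.inl hx)) hl) h3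
    exact ⟨h6, fun h8 => h5 (h7 h8 g h4)⟩

end Pool.Agent.Results.MP_ecfd11_lc.ForcingIff
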