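import Pool.Agent.MP_ecfd11_lc.H3U.SFull

namespace Pool.Agent.Results.MP_ecfd11_lc.LevelEmbeddings

open Pool.Agent.MP_ecfd11_lc Pool.Agent.MP_ecfd11_lc.H20 Pool.Agent.MP_ecfd11_lc.H3U

universe u

/-- Let `d` be strongly compact.  The regular cardinals that are not omega-strongly measurable in
HOD form a set iff for every large regular `l` the level `HOD ∩ V_(l+1)` is the direct limit of
elementary embeddings `HOD ∩ V_(a+1) → HOD ∩ V_(l+1)` with critical point `a`, for all `a` in a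
club subset of `l`. -/
theorem result (d : ZFSet.{u}) (hd : ∀ l : ZFSet.{u}, l.IsOrdinal → StronglyCompact d l) :
    (∀ x : ZFSet.{u}, x.IsOrdinal →
        ∃ l, x ∈ l ∧ Regular Set.univ l ∧ ¬ StronglyMeasurable Set.univ l) ↔
      ¬ ∃ x : ZFSet.{u}, x.IsOrdinal ∧ ∀ l, x ∈ l → Regular Set.univ l → Limit l := by
  have hr := (hd ∅ ZFSet.isOrdinal_empty).1
  have key : ∀ a t : ZFSet.{u}, a.IsOrdinal → a ∪ d ∈ t → t.IsOrdinal → a ∈ t ∧ d ∈ t :=
    fun a t ha h1 h2 =>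
      ⟨ha.mem_of_subset_of_mem h2 (fun x hx => ZFSet.mem_union.2 (Or.inl hx)) h1,
        hr.1.mem_of_subset_of_mem h2 (fun x hx => ZFSet.mem_union.2 (Or.inr hx)) h1⟩
  have reg : ∀ t : ZFSet.{u}, d ⊆ t → Regular Set.univ (succCard t) := fun t h =>
    regular_succCard (hr.aleph0_lt.le.trans (ZFSet.card_mono h))
  refine ⟨?_, fun h a ha => by_contra fun hn => h ⟨a ∪ d, isOrdinal_union ha hr.1,
    fun t h1 h2 => ?_⟩⟩
  · rintro h ⟨x, hx, h1⟩
    have h2 := reg (x ∪ d) fun z hz => ZFSet.mem_union.2 (Or.inr hz)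
    obtain ⟨h3, h4⟩ := key x _ hx (mem_succCard.2 ⟨isOrdinal_union hx hr.1, le_rfl⟩) h2.1
    obtain ⟨c, s, c1, c2, -⟩ := h1 _ h3 h2
    have hu := unc_of_regular h2
    have := neBot hu (stat_iff.1 (stat_cofOmega h2)).2
    obtain ⟨a, a1, a2, a3⟩ := ((ev_club hu c1).and ((ev_above hu h4).and
      (ev_mem (S := (succCard (x ∪ d)).sep (CofOmega Set.univ)) hu))).exists
    have a4 := (ZFSet.mem_sep.1 a3.1).2
    obtain ⟨l, h5, h6, h7⟩ :=
      h ((2 : Cardinal.{u}) ^ a.card).ord.toZFSet (ZFSet.isOrdinal_toZFSet _)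
    exact h7 ((c2 a a1).1.sm h2 a3.2 a4 a2 h6 (hd l h6.1)
      (by simpa only [card_ord'] using h6.card_lt h5))
  · have hs : ∀ l, a ∈ l → Regular Set.univ l → StronglyMeasurable Set.univ l :=
      fun l h1 h2 => by_contra fun h3 => hn ⟨l, h1, h2, h3⟩
    obtain ⟨h3, h4⟩ := key a t ha h1 h2.1
    have h5 : t ∈ succCard t := mem_succCard.2 ⟨h2.1, le_rfl⟩
    refine main (hd t h2.1) h4 (hs t h3 h2) (Order.lt_succ_iff.1 ?_)
    rw [← card_succCard]
    refine lt_of_le_of_lt (ZFSet.card_mono fun A hA => ?_) (few_hod (hs _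
      ((succCard_ord t).mem_trans h3 h5) (reg t (h2.1.subset_of_mem h4))) h5)
    exact ZFSet.mem_sep.2 ⟨ZFSet.mem_powerset.2 ((mem_Lev h2.1).1 hA).1, ((mem_Lev h2.1).1 hA).2⟩

end Pool.Agent.Results.MP_ecfd11_lc.LevelEmbeddings
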