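import Pool.Agent.MP_ecfd11_lc.Mg.H20_Main

namespace Pool.Agent.Results.MP_ecfd11_lc.MitchellOrder

open Pool.Agent.MP_ecfd11_lc Pool.Agent.MP_ecfd11_lc.H20

universe u

/-- Above an `l`-strongly compact cardinal `d`, a cardinal `l` that is omega-strongly measurable
in HOD has Mitchell order at least `d` in HOD. -/
theorem result (d l : ZFSet.{u}) (hd : StronglyCompact d l) (hdl : d ∈ l)
    (hl : StronglyMeasurable Set.univ l) :
    ∃ s, HOD Set.univ s ∧ (∃ r, ZFSet.IsFunc d r s) ∧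
      (∀ i U, ZFSet.pair i U ∈ s → NormalMeasure l U) ∧
      ∀ i U k W, ZFSet.pair i U ∈ s → ZFSet.pair k W ∈ s → i ∈ k → Mitchell l U W :=
  main hd hdl hl

end Pool.Agent.Results.MP_ecfd11_lc.MitchellOrder
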