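import Pool.Agent.MP_ecfd11_lc.Mg.H20_Silver

namespace Pool.Agent.Results.MP_ecfd11_lc.SilverReflection

open Pool.Agent.MP_ecfd11_lc Pool.Agent.MP_ecfd11_lc.H20

universe u

/-- If `k` is a singular strong limit cardinal of uncountable cofinality `g` and its successor is
omega-strongly measurable in HOD, then the successors of club many `d < k` are subtle for
sequences in HOD. -/
theorem result (g k : ZFSet.{u}) (hg : Cof Set.univ g k) (h0 : Cardinal.aleph0 < g.card)
    (hm : g ∈ k) (hsl : ∀ a ∈ k, 2 ^ a.card < k.card)
    (h : StronglyMeasurable Set.univ (succCard k)) :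
    ∃ c, Club k c ∧ ∀ d ∈ c, Subtle (succCard d) :=
  silver (sing_of_cof hg h0 hm hsl) h

end Pool.Agent.Results.MP_ecfd11_lc.SilverReflection
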